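import Mathlib
import Pool.Agent.LDC.Main

/-!
Low-degree polynomials and `q`-colourability of the random graph `G(n,1/2)`.
-/

namespace Pool.Agent.Results.MP_537ba7_lc.LowDegreeColoring

open Filter

/-- The unordered pairs of distinct vertices of the vertex set `Fin n`. -/
abbrev Pair (n : ℕ) : Type := {e : Sym2 (Fin n) // ¬ e.IsDiag}

open Classical in
/-- The encoding of a graph on `Fin n` by a vector of signs, one sign for each pair. -/
noncomputable def enc {n : ℕ} (G : SimpleGraph (Fin n)) (e : Pair n) : ℝ :=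
  if (e : Sym2 (Fin n)) ∈ G.edgeSet then 1 else -1

open Classical in
/-- The expectation over the random graph `G(n,1/2)`, that is, the average over all graphs
on `Fin n`. -/
noncomputable def expQ {n : ℕ} (F : SimpleGraph (Fin n) → ℝ) : ℝ :=
  (∑ G : SimpleGraph (Fin n), F G) / (Fintype.card (SimpleGraph (Fin n)) : ℝ)

/-- The sequence of polynomials `f` weakly separates `G(n,1/2)` from the graphs on `n` vertices
that have a proper colouring with `q n` colours. -/
def WeaklySeparates (q : ℕ → ℕ) (f : ∀ n : ℕ, MvPolynomial (Pair n) ℝ) : Prop :=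
  ∃ B : ℝ, ∀ᶠ n : ℕ in atTop,
    (∀ G : SimpleGraph (Fin n), G.Colorable (q n) → 1 ≤ MvPolynomial.eval (enc G) (f n)) ∧
    expQ (fun G : SimpleGraph (Fin n) => MvPolynomial.eval (enc G) (f n)) = 0 ∧
    expQ (fun G : SimpleGraph (Fin n) => (MvPolynomial.eval (enc G) (f n)) ^ 2) ≤ B

section Aux

variable {n : ℕ}

/-- the graph of a vector of bits -/
def gr (x : Pair n → Bool) : SimpleGraph (Fin n) :=
  SimpleGraph.fromEdgeSet {e | ∃ h : ¬ e.IsDiag, x ⟨e, h⟩ = true}

theorem mem_gr (x : Pair n → Bool) (e : Pair n) :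
    (e : Sym2 (Fin n)) ∈ (gr x).edgeSet ↔ x e = true := by
  unfold gr
  rw [SimpleGraph.edgeSet_fromEdgeSet]
  constructor
  · rintro ⟨⟨h, hx⟩, _⟩
    exact hx
  · intro hx
    refine ⟨⟨e.2, hx⟩, ?_⟩
    intro h
    exact e.2 (by simpa using h)

open Classical in
/-- graphs and vectors of bits -/
noncomputable def grEquiv (n : ℕ) : (Pair n → Bool) ≃ SimpleGraph (Fin n) where
  toFun := gr
  invFun := fun G e => decide ((e : Sym2 (Fin n)) ∈ G.edgeSet)
  left_inv := by
    intro x
    funext e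
    have h := mem_gr x e
    by_cases hx : x e = true
    · rw [hx]
      exact decide_eq_true (h.2 hx)
    · have hx' : x e = false := by simpa using hx
      rw [hx']
      exact decide_eq_false (fun h2 => hx (h.1 h2))
  right_inv := by
    intro G
    rw [← SimpleGraph.edgeSet_inj]
    ext e
    by_cases he : e.IsDiag
    · constructor
      · intro h
        exact absurd he (SimpleGraph.not_isDiag_of_mem_edgeSet _ h)
      · intro h
        exact absurd he (SimpleGraph.not_isDiag_of_mem_edgeSet _ h)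
    · have h := mem_gr (fun e : Pair n => decide ((e : Sym2 (Fin n)) ∈ G.edgeSet)) ⟨e, he⟩
      rw [decide_eq_true_iff] at h
      exact h

theorem enc_gr (x : Pair n → Bool) : enc (gr x) = fun e => LDC.sg (x e) := by
  classical
  funext e
  unfold enc LDC.sg
  have h := mem_gr x e
  by_cases hx : x e = true
  · rw [if_pos (h.2 hx), if_pos hx]
  · rw [if_neg (fun h2 => hx (h.1 h2)), if_neg hx]

theorem expQ_eq (F : SimpleGraph (Fin n) → ℝ) : expQ F = LDC.av (fun x => F (gr x)) := by
  classical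
  unfold expQ LDC.av
  congr 1
  · exact (Equiv.sum_comp (grEquiv n) F).symm
  · rw [Fintype.card_congr (grEquiv n)]

/-- the two vertices of a pair -/
def ends (e : Pair n) : Finset (Fin n) := (e : Sym2 (Fin n)).toFinset

theorem ends_card (e : Pair n) : (ends e).card = 2 :=
  Sym2.card_toFinset_of_not_isDiag _ e.2

theorem ends_inj : Function.Injective (ends (n := n)) := by
  intro a b h
  apply Subtype.ext
  apply Sym2.ext
  intro v
  have h1 : v ∈ ends a ↔ v ∈ ends b := by rw [h]
  unfold ends at h1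
  rwa [Sym2.mem_toFinset, Sym2.mem_toFinset] at h1

theorem colorable_gr {q : ℕ} [NeZero q] (σ : Fin n → ZMod q) (x : Pair n → Bool)
    (h : ∀ e, LDC.Within ends σ e → x e = false) : (gr x).Colorable q := by
  have h1 : ∀ {u v : Fin n}, (gr x).Adj u v → σ u ≠ σ v := by
    intro u v huv hσ
    have hd : ¬ (s(u, v) : Sym2 (Fin n)).IsDiag := by
      rw [Sym2.mk_isDiag_iff]
      exact huv.ne
    have h2 := (mem_gr x ⟨s(u, v), hd⟩).1 ((SimpleGraph.mem_edgeSet _).2 huv)
    have h3 : x ⟨s(u, v), hd⟩ = false := by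
      apply h
      intro a ha b hb
      unfold ends at ha hb
      rw [Sym2.mem_toFinset, Sym2.mem_iff] at ha hb
      rcases ha with rfl | rfl <;> rcases hb with rfl | rfl
      · rfl
      · exact hσ
      · exact hσ.symm
      · rfl
    rw [h2] at h3
    exact absurd h3 (by decide)
  have h4 := (SimpleGraph.Coloring.mk σ h1).colorable
  rwa [ZMod.card] at h4

theorem key {q : ℕ} [NeZero q] {D : ℕ} {f : MvPolynomial (Pair n) ℝ} (hdeg : f.totalDegree ≤ D)
    (h1 : ∀ G : SimpleGraph (Fin n), G.Colorable q → 1 ≤ MvPolynomial.eval (enc G) f)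
    (h0 : expQ (fun G : SimpleGraph (Fin n) => MvPolynomial.eval (enc G) f) = 0)
    (Gd : Finset (Finset (Pair n))) (lam : Finset (Pair n) → ℝ) :
    1 ≤ expQ (fun G : SimpleGraph (Fin n) => (MvPolynomial.eval (enc G) f) ^ 2) *
      ∑ H ∈ Finset.univ.filter (fun H : Finset (Pair n) => 1 ≤ H.card ∧ H.card ≤ D),
        (LDC.Pb q ends Gd lam H) ^ 2 := by
  classical
  obtain ⟨c, hc1, hc2⟩ := LDC.poly_expand f
  have e1 : ∀ x : Pair n → Bool, MvPolynomial.eval (enc (gr x)) f = ∑ H, c H * LDC.chi H x := by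
    intro x
    rw [enc_gr]
    exact hc2 x
  rw [expQ_eq] at h0 ⊢
  simp_rw [e1] at h0 ⊢
  rw [LDC.av_expand] at h0
  rw [LDC.av_expand_sq]
  refine LDC.duality ends (fun H hH => hc1 H (lt_of_le_of_lt hdeg hH)) h0 ?_ Gd lam
  intro σ x hx
  rw [← e1]
  exact h1 _ (colorable_gr σ x hx)

end Aux

theorem growth {κ : ℝ} (hκ : 0 < κ) (K : ℝ) (hK : 1 ≤ K) :
    ∀ᶠ n : ℕ in atTop, 1 ≤ Real.log n ∧
      2 * K * Real.log n ≤ κ * (Real.log n / Real.log (Real.log n)) ^ 2 := by
  have hlog : Tendsto (fun n : ℕ => Real.log (n : ℝ)) atTop atTop :=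
    Real.tendsto_log_atTop.comp tendsto_natCast_atTop_atTop
  have hc : 0 < κ / (2 * K) := by positivity
  have e1 : ∀ᶠ x : ℝ in atTop, Real.log x ^ 2 ≤ κ / (2 * K) * x := by
    have h1 := (Real.isLittleO_pow_log_id_atTop (n := 2)).bound hc
    filter_upwards [h1, eventually_ge_atTop 1] with x hx hx1
    rw [Real.norm_of_nonneg (by positivity), id, Real.norm_of_nonneg (by linarith)] at hx
    exact hx
  have e2 : ∀ᶠ x : ℝ in atTop, 1 ≤ Real.log x :=
    Real.tendsto_log_atTop.eventually (eventually_ge_atTop _)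
  filter_upwards [hlog.eventually e1, hlog.eventually e2, hlog.eventually (eventually_ge_atTop 1)]
    with n h1 h2 h3
  refine ⟨h3, ?_⟩
  set L := Real.log (n : ℝ) with hL
  set l := Real.log L with hl
  have hl0 : 0 < l := by linarith
  have hL0 : 0 < L := by linarith
  rw [div_pow, ← mul_div_assoc, le_div_iff₀ (by positivity)]
  calc 2 * K * L * l ^ 2 ≤ 2 * K * L * (κ / (2 * K) * L) := by gcongr
    _ = κ * L ^ 2 := by field_simp

/-- For every `ε > 0` there is a degree `D n`, larger than any multiple of `log n` and in fact at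
least a constant times `(log n / log log n) ^ 2`, such that for all `q n ≥ n ^ (1/2 + ε)` no
sequence of polynomials of degree at most `D n` weakly separates `G(n,1/2)` from the
`q n`-colourable graphs. -/
theorem result (ε : ℝ) (hε : 0 < ε) :
    ∃ D : ℕ → ℕ, Tendsto (fun n : ℕ => (D n : ℝ) / Real.log n) atTop atTop ∧
      (∃ c : ℝ, 0 < c ∧ ∀ᶠ n : ℕ in atTop,
        c * (Real.log n / Real.log (Real.log n)) ^ 2 ≤ D n) ∧
      ∀ q : ℕ → ℕ, (∀ᶠ n : ℕ in atTop, (n : ℝ) ^ ((1 : ℝ) / 2 + ε) ≤ q n) →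
        ¬ ∃ f : ∀ n : ℕ, MvPolynomial (Pair n) ℝ,
          (∀ᶠ n : ℕ in atTop, (f n).totalDegree ≤ D n) ∧ WeaklySeparates q f := by
  classical
  obtain ⟨κ, hκ, hfb⟩ := LDC.final_bound ε hε
  let y : ℕ → ℝ := fun n => κ * (Real.log n / Real.log (Real.log n)) ^ 2
  have hy0 : ∀ n, 0 ≤ y n := fun n => by positivity
  refine ⟨fun n => ⌊y n⌋₊, ?_, ⟨κ / 2, by positivity, ?_⟩, ?_⟩
  · rw [tendsto_atTop]
    intro K
    filter_upwards [growth hκ (max K 1) (le_max_right _ _)] with n hn
    obtain ⟨h1, h2⟩ := hn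
    have h3 : y n < (⌊y n⌋₊ : ℝ) + 1 := Nat.lt_floor_add_one _
    have h4 : 2 * max K 1 * Real.log n ≤ y n := h2
    have h5 : (1 : ℝ) ≤ max K 1 := le_max_right _ _
    have h6 : K ≤ max K 1 := le_max_left _ _
    rw [le_div_iff₀ (by linarith)]
    have h7 : 1 ≤ max K 1 * Real.log n := one_le_mul_of_one_le_of_one_le h5 h1
    have h8 : K * Real.log n ≤ max K 1 * Real.log n := by gcongr
    nlinarith
  · filter_upwards [growth hκ 1 le_rfl] with n hn
    obtain ⟨h1, h2⟩ := hn
    have h3 : y n < (⌊y n⌋₊ : ℝ) + 1 := Nat.lt_floor_add_one _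
    have h4 : 2 * 1 * Real.log n ≤ y n := h2
    have h5 : κ / 2 * (Real.log n / Real.log (Real.log n)) ^ 2 = y n / 2 := by
      simp only [y]
      ring
    rw [h5]
    linarith
  · rintro q hq ⟨f, hdeg, B, hB⟩
    set B' : ℝ := max B 1 with hB'
    have hB1 : 1 ≤ B' := le_max_right _ _
    have hδ : (0 : ℝ) < 1 / (2 * B') := by positivity
    have hfin : ∀ᶠ n : ℕ in atTop, False := by
      filter_upwards [hq, hdeg, hB, hfb _ hδ, eventually_ge_atTop 1] with n h1 h2 h3 h4 h5
      obtain ⟨ha, hb, hc⟩ := h3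
      have hn0 : (0 : ℝ) < n := by exact_mod_cast h5
      have hqpos : 0 < q n := by
        have h6 : (0 : ℝ) < (n : ℝ) ^ ((1 : ℝ) / 2 + ε) := by positivity
        exact_mod_cast lt_of_lt_of_le h6 h1
      have : NeZero (q n) := ⟨hqpos.ne'⟩
      obtain ⟨Gd, lam, h7⟩ := h4 (q n) h1 (ends (n := n)) ends_inj ends_card
        (Fintype.card_fin n)
      have h8 := h7 ⌊y n⌋₊ (Nat.floor_le (hy0 n))
      have h9 := key (q := q n) h2 ha hb Gd lam
      set S : ℝ := ∑ H ∈ Finset.univ.filter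
        (fun H : Finset (Pair n) => 1 ≤ H.card ∧ H.card ≤ ⌊y n⌋₊),
        (LDC.Pb (q n) ends Gd lam H) ^ 2 with hS
      have hS0 : 0 ≤ S := Finset.sum_nonneg (fun H _ => sq_nonneg _)
      have h10 : expQ (fun G : SimpleGraph (Fin n) =>
          (MvPolynomial.eval (enc G) (f n)) ^ 2) * S ≤ B' * (1 / (2 * B')) := by
        apply mul_le_mul (hc.trans (le_max_left _ _)) h8 hS0 (by linarith)
      have h11 : B' * (1 / (2 * B')) = 1 / 2 := by field_simp
      linarith
    exact (hfin.exists).elim (fun _ h => h)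

end Pool.Agent.Results.MP_537ba7_lc.LowDegreeColoring
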